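import Mathlib
import Pool.Agent.Lib_helper38.XA.Defs
import Pool.Agent.Lib_helper16.XA.Ft
set_option autoImplicit false

/-! XA, block G1: the Fourier transform on a finite abelian group -/

namespace Pool.Agent.XA

open Finset Filter Pool.Agent.XO

section ft

variable {A : Type} [AddCommGroup A] [Fintype A]

theorem g1_card_ne : (Fintype.card A : ℂ) ≠ 0 := by
  have : 0 < Fintype.card A := Fintype.card_pos_iff.mpr ⟨0⟩
  exact_mod_cast this.ne'

/-- orthogonality -/
theorem g1_orth [DecidableEq A] (a b : A) :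
    ∑ χ : AddChar A ℂ, (starRingEnd ℂ) (χ b) * χ a = if a = b then (Fintype.card A : ℂ) else 0 := by
  have h1 : ∀ χ : AddChar A ℂ, (starRingEnd ℂ) (χ b) * χ a = χ (a - b) := by
    intro χ
    rw [← AddChar.map_neg_eq_conj, ← AddChar.map_add_eq_mul]
    congr 1
    abel
  rw [Finset.sum_congr rfl fun χ _ => h1 χ, AddChar.sum_apply_eq_ite]
  by_cases h : a = b
  · rw [if_pos h, if_pos (sub_eq_zero.mpr h)]
  · rw [if_neg h, if_neg (fun h' => h (sub_eq_zero.mp h'))]

theorem ft_inv (f : A → ℝ) (a : A) :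
    ev (ft f) (AddChar.doubleDualEmb a : AddChar (AddChar A ℂ) ℂ) = (f a : ℂ) := by
  classical
  unfold ev ft
  have h1 : ∀ χ : AddChar A ℂ, (Fintype.card A : ℂ)⁻¹ * (∑ b, (f b : ℂ) * (starRingEnd ℂ) (χ b)) *
      (AddChar.doubleDualEmb a : AddChar (AddChar A ℂ) ℂ) χ =
      (Fintype.card A : ℂ)⁻¹ * ∑ b, (f b : ℂ) * ((starRingEnd ℂ) (χ b) * χ a) := by
    intro χ
    rw [AddChar.doubleDualEmb_apply, mul_assoc, Finset.sum_mul]
    congr 1
    refine Finset.sum_congr rfl fun b _ => ?_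
    rw [mul_assoc]
  rw [Finset.sum_congr rfl fun χ _ => h1 χ, ← Finset.mul_sum, Finset.sum_comm]
  have h2 : ∀ b : A, ∑ χ : AddChar A ℂ, (f b : ℂ) * ((starRingEnd ℂ) (χ b) * χ a) =
      if a = b then (f b : ℂ) * (Fintype.card A : ℂ) else 0 := by
    intro b
    rw [← Finset.mul_sum, g1_orth]
    by_cases h : a = b
    · rw [if_pos h, if_pos h]
    · rw [if_neg h, if_neg h, mul_zero]
  rw [Finset.sum_congr rfl fun b _ => h2 b, Finset.sum_ite_eq, if_pos (Finset.mem_univ a)]
  have := g1_card_ne (A := A)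
  field_simp

theorem ft_bf {f : A → ℝ} (hf : ∀ a, f a = 1 ∨ f a = -1) : BF (ft f) := by
  classical
  have hN := g1_card_ne (A := A)
  refine ⟨?_, ?_⟩
  · intro g
    have h1 : ∀ χ : AddChar A ℂ, ft f χ * ft f (g - χ) =
        ((Fintype.card A : ℂ)⁻¹ * (Fintype.card A : ℂ)⁻¹) *
          ∑ a, ∑ b, (f a : ℂ) * (f b : ℂ) * (starRingEnd ℂ) (g b) *
            ((starRingEnd ℂ) (χ a) * χ b) := by
      intro χ
      unfold ft
      rw [mul_mul_mul_comm, Finset.sum_mul_sum]
      congr 1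
      refine Finset.sum_congr rfl fun a _ => Finset.sum_congr rfl fun b _ => ?_
      have h2 : (starRingEnd ℂ) ((g - χ) b) = (starRingEnd ℂ) (g b) * χ b := by
        rw [← AddChar.map_neg_eq_conj, ← AddChar.map_neg_eq_conj, sub_eq_add_neg,
          AddChar.add_apply, AddChar.neg_apply, neg_neg]
      rw [h2]
      ring
    rw [Finset.sum_congr rfl fun χ _ => h1 χ, ← Finset.mul_sum, Finset.sum_comm]
    have h3 : ∀ a : A, ∑ χ : AddChar A ℂ, ∑ b, (f a : ℂ) * (f b : ℂ) * (starRingEnd ℂ) (g b) *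
        ((starRingEnd ℂ) (χ a) * χ b) = (Fintype.card A : ℂ) * g (-a) := by
      intro a
      rw [Finset.sum_comm]
      have h4 : ∀ b : A, ∑ χ : AddChar A ℂ, (f a : ℂ) * (f b : ℂ) * (starRingEnd ℂ) (g b) *
          ((starRingEnd ℂ) (χ a) * χ b) =
          if b = a then (Fintype.card A : ℂ) * g (-a) else 0 := by
        intro b
        rw [← Finset.mul_sum, g1_orth]
        by_cases h : b = a
        · rw [if_pos h, if_pos h, h, ← AddChar.map_neg_eq_conj]
          have h5 : (f a : ℂ) * (f a : ℂ) = 1 := by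
            rcases hf a with h6 | h6 <;> rw [h6] <;> norm_num
          rw [h5, one_mul, mul_comm]
        · rw [if_neg h, if_neg h, mul_zero]
      rw [Finset.sum_congr rfl fun b _ => h4 b, Finset.sum_ite_eq', if_pos (Finset.mem_univ a)]
    rw [Finset.sum_congr rfl fun a _ => h3 a, ← Finset.mul_sum]
    have h6 : ∑ a : A, g (-a) = if g = 0 then (Fintype.card A : ℂ) else 0 := by
      rw [← AddChar.sum_eq_ite g]
      exact Fintype.sum_equiv (Equiv.neg A) _ _ (fun a => rfl)
    rw [h6]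
    by_cases h : g = 0
    · rw [if_pos h, if_pos h]
      field_simp
    · rw [if_neg h, if_neg h, mul_zero, mul_zero]
  · intro χ
    unfold ft
    rw [map_mul, map_sum, map_inv₀, Complex.conj_natCast]
    congr 1
    refine Finset.sum_congr rfl fun a _ => ?_
    rw [map_mul, Complex.conj_ofReal]
    congr 1
    rw [AddChar.neg_apply, AddChar.map_neg_eq_conj]

end ft

end Pool.Agent.XA
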